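import Pool.Agent.Work.MP_3070fc_an.Cantor

set_option autoImplicit false

namespace Pool.Agent.Results.MP_3070fc_an.NoMinimalAction

open Pool.Agent.Work.MP_3070fc_an in
/-- A finitely generated group with a faithful action by orientation preserving smooth circle
diffeomorphisms having a Cantor minimal set, and with no faithful minimal action by circle
homeomorphisms at all. -/
theorem result : ∃ (G : Type) (_ : Group G) (_ : Group.FG G) (φ₀ : G →* Equiv.Perm Circle),
    Function.Injective φ₀ ∧
    (∀ (g : G) (k : ℕ), ContDiff ℝ k (fun θ : ℝ => (φ₀ g (Circle.exp θ) : ℂ))) ∧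
    (∀ g : G, ∃ F : ℝ → ℝ, Continuous F ∧ StrictMono F ∧ (∀ x, F (x + 1) = F x + 1) ∧
      ∀ x, φ₀ g (Circle.exp (2 * Real.pi * x)) = Circle.exp (2 * Real.pi * F x)) ∧
    (∃ K : Set Circle, IsClosed K ∧ K.Nonempty ∧ (∀ g : G, φ₀ g '' K ⊆ K) ∧
      (∀ L : Set Circle, L ⊆ K → IsClosed L → L.Nonempty → (∀ g : G, φ₀ g '' L ⊆ L) → L = K) ∧
      Nonempty (K ≃ₜ cantorSet)) ∧
    ∀ ψ : G →* Equiv.Perm Circle, (∀ g : G, Continuous (ψ g)) → Function.Injective ψ →
      ¬ ∀ x : Circle, Dense (Set.range fun g : G => ψ g x) := by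
  obtain ⟨h, hs, hs', hfix, hne⟩ := exists_arc_diffeo'
  let H : Subgroup (Equiv.Perm Circle) := Subgroup.closure (gens h)
  let s : Fin 3 → H := fun i => ⟨sg i, Subgroup.subset_closure (Or.inr ⟨i, rfl⟩)⟩
  let u : H := ⟨h, Subgroup.subset_closure (Or.inl rfl)⟩
  let S : Set H := insert (u * u) (Set.range fun p : Fin 3 × Fin 3 =>
    (s p.1 * s p.2) * (s p.1 * s p.2))
  have hfin : Finite S := (Set.finite_range _).insert _
  let G : Subgroup H := Subgroup.closure S
  let φ : G →* Equiv.Perm Circle := H.subtype.comp G.subtype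
  let a : Fin 3 → Fin 3 → G := fun i j =>
    ⟨(s i * s j) * (s i * s j), Subgroup.subset_closure (Or.inr ⟨(i, j), rfl⟩)⟩
  let v : G := ⟨u * u, Subgroup.subset_closure (Or.inl rfl)⟩
  have hsm : ∀ g : H, Sm g.1 := fun g => gens_sm hs hs' g.2
  have hop : ∀ g ∈ G, OP (fun (g : H) (z : Circle) => g.1 z) g := by
    have h1 : (fun (g : H) (z : Circle) => g.1 z) 1 = id := rfl
    have hm : ∀ g g' : H, (fun (g : H) (z : Circle) => g.1 z) (g * g') =
        (fun (g : H) (z : Circle) => g.1 z) g ∘ (fun (g : H) (z : Circle) => g.1 z) g' :=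
      fun _ _ => rfl
    have hq := OP_sq h1 hm fun g => (hsm g).continuous
    intro g hg
    induction hg using Subgroup.closure_induction with
    | mem x hx =>
      rcases hx with rfl | ⟨p, rfl⟩
      · exact hq _
      · exact hq _
    | one => simpa using hq 1
    | mul x y _ _ hx hy => exact hx.mul hm hy
    | inv x _ hx => exact hx.inv h1 hm
  obtain ⟨K, hK0, hKc, hKn, hKi, hKm⟩ := exists_minimal (fun (g : G) => (φ g : Circle → Circle))
    K0_closed K0_nonempty (fun g => by
      rintro _ ⟨z, hz, rfl⟩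
      exact K0_inv hfix g.1.2 z hz)
  refine ⟨G, inferInstance, inferInstance, φ, H.subtype_injective.comp G.subtype_injective,
    fun g k => (hsm g.1).contDiff k, fun g => ?_, ⟨K, hKc, hKn, hKi, hKm, ?_⟩,
    fun ψ hc hinj hd => ?_⟩
  · obtain ⟨U, hU⟩ := hop g.1 g.2
    exact ⟨U.1, unit_continuous U, U.1.monotone.strictMono_of_injective
      (CircleDeg1Lift.isUnit_iff_bijective.mp U.isUnit).1, U.1.map_add_one,
      fun x => (hU x).symm⟩
  · exact minimal_cantor φ (fun g => (hsm g.1).continuous) hKc hKi hKm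
      (infinite_of_inv' hKn fun i j z hz => hKi (a i j) ⟨z, hz, rfl⟩)
      fun e => one_not_mem_K0 (hK0 e)
  · have key := obstruction (ψ := fun (g : G) (z : Circle) => ψ g z)
      (by funext z; simp) (fun g g' => by funext z; simp) hc
      (fun g g' e => hinj (Equiv.ext (congrFun e))) hd v (fun g => by
        have c := conj_commute hfix g.1.2
        apply (H.subtype_injective.comp G.subtype_injective : Function.Injective φ)
        have e : φ (g * v * g⁻¹) = (g.1.1 * h * g.1.1⁻¹) * (g.1.1 * h * g.1.1⁻¹) := by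
          show g.1.1 * (h * h) * g.1.1⁻¹ = _
          group
        have e' : φ v = h * h := rfl
        show φ (g * v * g⁻¹ * v) = φ (v * (g * v * g⁻¹))
        rw [map_mul φ _ v, map_mul φ v, e, e']
        exact ((c.mul_left c).mul_right (c.mul_left c)).eq) (a 1 0)
    refine comm_ne_one (u := (h * h) * (h * h)) red_eight (fun z hz => ?_) hne (congrArg φ key)
    simp only [Equiv.Perm.mul_apply, hfix z hz]

end Pool.Agent.Results.MP_3070fc_an.NoMinimalAction
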